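import Pool.Agent.N408.IB.Stm

/-!
# IB/ODD2 (helper143): the explicit belt bump
-/

open Real Set

namespace N143.IB.ODD2

open IB408

/-- second differences of a function with Lipschitz derivative -/
theorem second_diff (f f' : ℝ → ℝ) (L : ℝ) (hf : ∀ x, HasDerivAt f (f' x) x)
    (hL : ∀ x y, |f' x - f' y| ≤ L * |x - y|) (x δ : ℝ) :
    |f (x + δ) + f (x - δ) - 2 * f x| ≤ L * δ ^ 2 := by
  have key : ∀ δ : ℝ, 0 ≤ δ → |f (x + δ) + f (x - δ) - 2 * f x| ≤ L * δ ^ 2 := by
    intro δ hδ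
    have hφ : ∀ t : ℝ, HasDerivAt (fun t => f (x + t) + f (x - t) - 2 * f x)
        (f' (x + t) - f' (x - t)) t := by
      intro t
      have h1 : HasDerivAt (fun t => f (x + t)) (f' (x + t)) t := by
        simpa using (hf (x + t)).comp_const_add x t
      have h2 : HasDerivAt (fun t => f (x - t)) (-f' (x - t)) t := by
        simpa using (hf (x - t)).comp_const_sub x t
      have h3 := (h1.add h2).sub_const (2 * f x)
      rw [← sub_eq_add_neg] at h3
      exact h3
    have hB : ∀ t : ℝ, HasDerivAt (fun t => L * t ^ 2) (2 * L * t) t := by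
      intro t
      have := (hasDerivAt_pow 2 t).const_mul L
      simp only [Nat.cast_ofNat, Nat.add_one_sub_one, pow_one] at this
      have e : 2 * L * t = L * (2 * t) := by ring
      rw [e]
      exact this
    have h := image_norm_le_of_norm_deriv_right_le_deriv_boundary
      (f := fun t => f (x + t) + f (x - t) - 2 * f x) (a := 0) (b := δ)
      (f' := fun t => f' (x + t) - f' (x - t)) (B := fun t => L * t ^ 2) (B' := fun t => 2 * L * t)
      (fun t _ => (hφ t).continuousAt.continuousWithinAt)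
      (fun t _ => (hφ t).hasDerivWithinAt)
      (by simp; ring_nf) hB
      (fun t ht => by
        rw [Real.norm_eq_abs]
        refine (hL _ _).trans (le_of_eq ?_)
        have : x + t - (x - t) = 2 * t := by ring
        rw [this, abs_of_nonneg (by linarith [ht.1])]
        ring)
      (right_mem_Icc.2 hδ)
    rw [Real.norm_eq_abs] at h
    exact h
  rcases le_total 0 δ with h | h
  · exact key δ h
  · have h1 := key (-δ) (by linarith)
    rw [← sub_eq_add_neg, sub_neg_eq_add, neg_sq] at h1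
    rwa [add_comm (f (x + δ))]

theorem hasDerivAt_maxsq (y : ℝ) : HasDerivAt (fun y : ℝ => max y 0 ^ 2) (2 * max y 0) y := by
  rcases lt_trichotomy y 0 with h | h | h
  · have e : (fun y : ℝ => max y 0 ^ 2) =ᶠ[nhds y] fun _ => 0 := by
      filter_upwards [gt_mem_nhds h] with z hz
      rw [max_eq_right hz.le]
      norm_num
    rw [max_eq_right h.le, mul_zero]
    exact (hasDerivAt_const y (0 : ℝ)).congr_of_eventuallyEq e
  · subst h
    have h1 : (fun y : ℝ => max y 0 ^ 2) =O[nhds (0 : ℝ)] fun x => ‖x - 0‖ ^ 2 := by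
      refine Asymptotics.IsBigO.of_bound 1 (Filter.Eventually.of_forall fun z => ?_)
      rw [sub_zero, norm_pow, norm_pow, norm_norm, one_mul]
      refine pow_le_pow_left₀ (norm_nonneg _) ?_ 2
      rw [Real.norm_eq_abs, Real.norm_eq_abs, abs_of_nonneg (le_max_right _ _)]
      exact max_le (le_abs_self z) (abs_nonneg z)
    have h2 := (h1.hasFDerivAt (𝕜 := ℝ) (by norm_num)).hasDerivAt
    simpa using h2
  · have e : (fun y : ℝ => max y 0 ^ 2) =ᶠ[nhds y] fun y => y ^ 2 := by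
      filter_upwards [lt_mem_nhds h] with z hz
      rw [max_eq_left hz.le]
    rw [max_eq_left h.le]
    have h1 := hasDerivAt_pow 2 y
    simp only [Nat.cast_ofNat, Nat.add_one_sub_one, pow_one] at h1
    exact h1.congr_of_eventuallyEq e

theorem b_pos : 0 < b := by unfold b; norm_num

theorem b_le : b ≤ 1 / 1000000 := by unfold b; norm_num

/-- the bump as a function of the sine -/
noncomputable def g (s : ℝ) : ℝ := s * max (b ^ 2 - s ^ 2) 0 ^ 2 / b ^ 2

/-- its derivative -/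
noncomputable def k (s : ℝ) : ℝ :=
  max (b ^ 2 - s ^ 2) 0 * (max (b ^ 2 - s ^ 2) 0 - 4 * s ^ 2) / b ^ 2

theorem hasDerivAt_g (s : ℝ) : HasDerivAt g (k s) s := by
  have hb := b_pos
  have h1 : HasDerivAt (fun s : ℝ => b ^ 2 - s ^ 2) (-(2 * s)) s := by
    have h := (hasDerivAt_pow 2 s).const_sub (b ^ 2)
    simp only [Nat.cast_ofNat, Nat.add_one_sub_one, pow_one] at h
    exact h
  have h2 : HasDerivAt (fun s : ℝ => max (b ^ 2 - s ^ 2) 0 ^ 2)
      (2 * max (b ^ 2 - s ^ 2) 0 * (-(2 * s))) s :=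
    HasDerivAt.comp (h₂ := fun y : ℝ => max y 0 ^ 2) s (hasDerivAt_maxsq (b ^ 2 - s ^ 2)) h1
  have h3 := ((hasDerivAt_id' s).mul h2).div_const (b ^ 2)
  have e : k s = (1 * max (b ^ 2 - s ^ 2) 0 ^ 2 + s * (2 * max (b ^ 2 - s ^ 2) 0 * (-(2 * s)))) / b ^ 2 := by
    unfold k
    ring
  rw [e]
  exact h3

/-- clamp -/
noncomputable def cp (s : ℝ) : ℝ := max (-b) (min s b)

theorem cp_mem (s : ℝ) : -b ≤ cp s ∧ cp s ≤ b := by
  have hb := b_pos
  unfold cp
  exact ⟨le_max_left _ _, max_le (by linarith) (min_le_right _ _)⟩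

theorem cp_lip (s t : ℝ) : |cp s - cp t| ≤ |s - t| := by
  have h1 : |min s b - min t b| ≤ |s - t| := by
    have := abs_min_sub_min_le_max s b t b
    rw [sub_self, abs_zero, max_eq_left (abs_nonneg _)] at this
    exact this
  unfold cp
  rw [max_comm (-b) (min s b), max_comm (-b) (min t b)]
  exact (abs_max_sub_max_le_abs _ _ _).trans h1

theorem k_cp (s : ℝ) : k s = k (cp s) := by
  have hb := b_pos
  rcases le_total b s with h | h
  · have : cp s = b := by unfold cp; rw [min_eq_right h, max_eq_right (by linarith)]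
    rw [this]
    unfold k
    rw [max_eq_right (show b ^ 2 - s ^ 2 ≤ 0 by nlinarith), sub_self, max_self]
    ring
  rcases le_total s (-b) with h' | h'
  · have : cp s = -b := by unfold cp; rw [min_eq_left h, max_eq_left h']
    rw [this]
    unfold k
    rw [max_eq_right (show b ^ 2 - s ^ 2 ≤ 0 by nlinarith), neg_sq, sub_self, max_self]
    ring
  · have : cp s = s := by unfold cp; rw [min_eq_left h, max_eq_right h']
    rw [this]

theorem g_cp (s : ℝ) : g s = g (cp s) := by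
  have hb := b_pos
  rcases le_total b s with h | h
  · have : cp s = b := by unfold cp; rw [min_eq_right h, max_eq_right (by linarith)]
    rw [this]
    unfold g
    rw [max_eq_right (show b ^ 2 - s ^ 2 ≤ 0 by nlinarith), sub_self, max_self]
    ring
  rcases le_total s (-b) with h' | h'
  · have : cp s = -b := by unfold cp; rw [min_eq_left h, max_eq_left h']
    rw [this]
    unfold g
    rw [max_eq_right (show b ^ 2 - s ^ 2 ≤ 0 by nlinarith), neg_sq, sub_self, max_self]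
    ring
  · have : cp s = s := by unfold cp; rw [min_eq_left h, max_eq_right h']
    rw [this]

theorem poly_aux {u : ℝ} (h0 : 0 ≤ u) (h1 : u ≤ 1) : u * (1 - u ^ 2) ^ 2 ≤ 3 / 10 := by
  have e1 : 0 ≤ 1 - u ^ 2 := by nlinarith
  have e2 : 1 - u ^ 2 ≤ 1.2025 - 0.9 * u := by nlinarith [sq_nonneg (u - 0.45)]
  have e3 : (1 - u ^ 2) ^ 2 ≤ (1.2025 - 0.9 * u) ^ 2 := pow_le_pow_left₀ e1 e2 2
  have e4 : u * (1.2025 - 0.9 * u) ^ 2 ≤ 3 / 10 := by
    nlinarith [mul_nonneg h0 (sq_nonneg (u - 0.445)), mul_nonneg (sub_nonneg.2 h1) (sq_nonneg (u - 0.445)),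
      sq_nonneg (u - 0.445)]
  nlinarith

theorem g_le (s : ℝ) : |g s| ≤ 3 / 10 * b ^ 3 := by
  have hb := b_pos
  rw [g_cp]
  obtain ⟨h1, h2⟩ := cp_mem s
  set t := cp s
  have hm : max (b ^ 2 - t ^ 2) 0 = b ^ 2 - t ^ 2 := max_eq_left (by nlinarith)
  have hu0 : 0 ≤ |t| / b := by positivity
  have hu1 : |t| / b ≤ 1 := by
    rw [div_le_one hb]
    exact abs_le.2 ⟨h1, h2⟩
  have h3 := poly_aux hu0 hu1
  unfold g
  rw [hm, abs_div, abs_mul, abs_of_nonneg (sq_nonneg (b ^ 2 - t ^ 2)), abs_of_nonneg (sq_nonneg b)]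
  have e : |t| * (b ^ 2 - t ^ 2) ^ 2 / b ^ 2 = b ^ 3 * (|t| / b * (1 - (|t| / b) ^ 2) ^ 2) := by
    rw [div_pow, sq_abs]
    field_simp
  rw [e]
  have hb3 : 0 < b ^ 3 := by positivity
  nlinarith

theorem k_le (s : ℝ) : |k s| ≤ b ^ 2 := by
  have hb := b_pos
  rw [k_cp]
  obtain ⟨h1, h2⟩ := cp_mem s
  set t := cp s
  have hm : max (b ^ 2 - t ^ 2) 0 = b ^ 2 - t ^ 2 := max_eq_left (by nlinarith)
  unfold k
  rw [hm]
  have ht : t ^ 2 ≤ b ^ 2 := by nlinarith
  have ht0 : 0 ≤ t ^ 2 := sq_nonneg t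
  rw [abs_div, abs_of_nonneg (sq_nonneg b), div_le_iff₀ (by positivity), abs_le]
  constructor
  · nlinarith [sq_nonneg (t ^ 2 - 3 / 5 * b ^ 2), sq_nonneg (b ^ 2)]
  · nlinarith [mul_nonneg ht0 (sub_nonneg.2 ht)]

theorem k_lip (s t : ℝ) : |k s - k t| ≤ 8 * b * |s - t| := by
  have hb := b_pos
  rw [k_cp s, k_cp t]
  refine le_trans ?_ (mul_le_mul_of_nonneg_left (cp_lip s t) (by positivity))
  obtain ⟨h1, h2⟩ := cp_mem s
  obtain ⟨h3, h4⟩ := cp_mem t
  set x := cp s
  set y := cp t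
  have hx : max (b ^ 2 - x ^ 2) 0 = b ^ 2 - x ^ 2 := max_eq_left (by nlinarith)
  have hy : max (b ^ 2 - y ^ 2) 0 = b ^ 2 - y ^ 2 := max_eq_left (by nlinarith)
  unfold k
  rw [hx, hy]
  have e : (b ^ 2 - x ^ 2) * (b ^ 2 - x ^ 2 - 4 * x ^ 2) / b ^ 2 -
      (b ^ 2 - y ^ 2) * (b ^ 2 - y ^ 2 - 4 * y ^ 2) / b ^ 2 =
      ((x + y) * (5 * (x ^ 2 + y ^ 2) - 6 * b ^ 2)) / b ^ 2 * (x - y) := by
    field_simp
    ring
  rw [e, abs_mul]
  refine mul_le_mul_of_nonneg_right ?_ (abs_nonneg _)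
  rw [abs_div, abs_of_nonneg (sq_nonneg b), div_le_iff₀ (by positivity), abs_mul]
  have hp : |x + y| ≤ 2 * b := by rw [abs_le]; constructor <;> linarith
  have hp0 := abs_nonneg (x + y)
  have hr : |x + y| ^ 2 ≤ 2 * (x ^ 2 + y ^ 2) := by
    rw [sq_abs]
    nlinarith [sq_nonneg (x - y)]
  have hx2 : x ^ 2 ≤ b ^ 2 := by nlinarith
  have hy2 : y ^ 2 ≤ b ^ 2 := by nlinarith
  obtain ⟨p, hpd⟩ : ∃ p, p = |x + y| := ⟨_, rfl⟩
  rw [← hpd] at hp hp0 hr ⊢
  obtain ⟨r, hrd⟩ : ∃ r, r = x ^ 2 + y ^ 2 := ⟨_, rfl⟩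
  rw [← hrd] at hr ⊢
  have hr2 : r ≤ 2 * b ^ 2 := by rw [hrd]; linarith
  rcases le_total 0 (5 * r - 6 * b ^ 2) with h | h
  · rw [abs_of_nonneg h]
    calc p * (5 * r - 6 * b ^ 2) ≤ (2 * b) * (4 * b ^ 2) :=
          mul_le_mul hp (by linarith) h (by positivity)
      _ = 8 * b * b ^ 2 := by ring
  · rw [abs_of_nonpos h]
    have h5 : -(5 * r - 6 * b ^ 2) ≤ 6 * b ^ 2 - 5 / 2 * p ^ 2 := by linarith
    have h6 : p * (-(5 * r - 6 * b ^ 2)) ≤ p * (6 * b ^ 2 - 5 / 2 * p ^ 2) :=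
      mul_le_mul_of_nonneg_left h5 hp0
    have h7 : p * (6 * b ^ 2 - 5 / 2 * p ^ 2) ≤ 8 * b * b ^ 2 := by
      nlinarith [mul_nonneg hp0 (sq_nonneg (p - b)), mul_nonneg hb.le (sq_nonneg (p - b)),
        pow_pos hb 3, mul_nonneg hp0 (sq_nonneg p)]
    exact h6.trans h7

theorem g_lip (s t : ℝ) : |g s - g t| ≤ b ^ 2 * |s - t| := by
  have h := Convex.norm_image_sub_le_of_norm_hasDerivWithin_le (f := g) (f' := k) (C := b ^ 2)
    (s := Set.univ) (x := t) (y := s) (fun x _ => (hasDerivAt_g x).hasDerivWithinAt)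
    (fun x _ => by rw [Real.norm_eq_abs]; exact k_le x) convex_univ (mem_univ _) (mem_univ _)
  rwa [Real.norm_eq_abs, Real.norm_eq_abs] at h

theorem ob_eq (w γ : ℝ) : ob w γ = w * g (sin γ) := by
  unfold ob g
  ring

theorem t : S_ODD2 := by
  intro w hw0 hw1
  have hb := b_pos
  have hb1 := b_le
  refine ⟨?_, ?_, ?_, ?_, ?_, ?_, ?_, ?_⟩
  · unfold ob
    fun_prop
  · intro γ
    unfold ob
    rw [sin_neg, neg_sq]
    ring
  · intro γ
    rw [ob_eq, abs_mul, abs_of_nonneg hw0]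
    have := mul_le_mul_of_nonneg_left (g_le (sin γ)) hw0
    linarith
  · intro γ hγ
    unfold ob
    have h1 : b ^ 2 ≤ sin γ ^ 2 := by
      rw [← sq_abs (sin γ)]
      exact pow_le_pow_left₀ hb.le hγ 2
    rw [max_eq_right (by linarith)]
    ring
  · intro x y
    rw [ob_eq, ob_eq, ← mul_sub, abs_mul, abs_of_nonneg hw0, mul_assoc]
    refine mul_le_mul_of_nonneg_left ?_ hw0
    exact (g_lip _ _).trans (mul_le_mul_of_nonneg_left (abs_sin_sub_sin_le x y) (by positivity))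
  · intro x δ
    have hG : ∀ x, HasDerivAt (fun x => g (sin x)) (k (sin x) * cos x) x := fun x =>
      (hasDerivAt_g (sin x)).comp x (hasDerivAt_sin x)
    have hL : ∀ x y, |k (sin x) * cos x - k (sin y) * cos y| ≤ (8 * b + b ^ 2) * |x - y| := by
      intro x y
      have e : k (sin x) * cos x - k (sin y) * cos y =
          (k (sin x) - k (sin y)) * cos x + k (sin y) * (cos x - cos y) := by ring
      rw [e]
      refine (abs_add_le _ _).trans ?_
      rw [abs_mul, abs_mul]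
      have h1 : |k (sin x) - k (sin y)| * |cos x| ≤ (8 * b * |x - y|) * 1 := by
        refine mul_le_mul ?_ (abs_cos_le_one x) (abs_nonneg _) (by positivity)
        exact (k_lip _ _).trans (mul_le_mul_of_nonneg_left (abs_sin_sub_sin_le x y) (by positivity))
      have h2 : |k (sin y)| * |cos x - cos y| ≤ b ^ 2 * |x - y| :=
        mul_le_mul (k_le _) (abs_cos_sub_cos_le x y) (abs_nonneg _) (by positivity)
      linarith
    have h3 := second_diff (fun x => g (sin x)) (fun x => k (sin x) * cos x) (8 * b + b ^ 2) hG hL x δ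
    have e : ob w (x + δ) + ob w (x - δ) - 2 * ob w x =
        w * (g (sin (x + δ)) + g (sin (x - δ)) - 2 * g (sin x)) := by
      rw [ob_eq, ob_eq, ob_eq]; ring
    rw [e, abs_mul, abs_of_nonneg hw0]
    calc w * |g (sin (x + δ)) + g (sin (x - δ)) - 2 * g (sin x)|
        ≤ (1 / 10) * ((8 * b + b ^ 2) * δ ^ 2) :=
          mul_le_mul hw1 h3 (abs_nonneg _) (by norm_num)
      _ ≤ b * δ ^ 2 := by
          have : (1 / 10) * (8 * b + b ^ 2) ≤ b := by nlinarith
          calc (1 / 10) * ((8 * b + b ^ 2) * δ ^ 2) = ((1 / 10) * (8 * b + b ^ 2)) * δ ^ 2 := by ring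
            _ ≤ b * δ ^ 2 := mul_le_mul_of_nonneg_right this (sq_nonneg δ)
  · intro γ hγ
    have hal0 : 0 ≤ al := arcsin_nonneg.2 hb.le
    have hal1 : al ≤ π / 2 := arcsin_le_pi_div_two b
    have hsal : sin al = b := sin_arcsin (by linarith) (by linarith)
    have hg0 : 0 ≤ |γ| := abs_nonneg γ
    have hs : |sin γ| = sin |γ| := by
      rcases le_total 0 γ with h | h
      · rw [abs_of_nonneg h] at hγ ⊢
        rw [abs_of_nonneg]
        exact sin_nonneg_of_nonneg_of_le_pi h (by linarith [pi_pos])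
      · rw [abs_of_nonpos h] at hγ ⊢
        rw [sin_neg, abs_of_nonpos]
        exact sin_nonpos_of_nonpos_of_neg_pi_le h (by linarith [pi_pos])
    have hs0 : 0 ≤ |sin γ| := abs_nonneg _
    have hdiff : b - |sin γ| ≤ al - |γ| := by
      rw [hs, ← hsal]
      have h1 := abs_sin_sub_sin_le al |γ|
      rw [abs_of_nonneg (show 0 ≤ al - |γ| by linarith)] at h1
      exact (le_abs_self _).trans h1
    have hsb : |sin γ| ≤ b := by
      rw [hs, ← hsal]
      exact sin_le_sin_of_le_of_le_pi_div_two (by linarith [pi_pos]) hal1 hγ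
    have hgb : |g (sin γ)| ≤ 4 * b * (al - |γ|) ^ 2 := by
      unfold g
      have hm : max (b ^ 2 - sin γ ^ 2) 0 = b ^ 2 - sin γ ^ 2 := by
        refine max_eq_left ?_
        rw [← sq_abs (sin γ)]
        nlinarith
      rw [hm, abs_div, abs_mul, abs_of_nonneg (sq_nonneg (b ^ 2 - sin γ ^ 2)),
        abs_of_nonneg (sq_nonneg b), div_le_iff₀ (by positivity), ← sq_abs (sin γ)]
      obtain ⟨s, hsd⟩ : ∃ s, s = |sin γ| := ⟨_, rfl⟩
      rw [← hsd] at hs0 hdiff hsb ⊢
      have e : s * (b ^ 2 - s ^ 2) ^ 2 = (s * (b + s) ^ 2) * (b - s) ^ 2 := by ring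
      rw [e]
      have h1 : (b - s) ^ 2 ≤ (al - |γ|) ^ 2 := pow_le_pow_left₀ (by linarith) hdiff 2
      have h2 : (b + s) ^ 2 ≤ (2 * b) ^ 2 := pow_le_pow_left₀ (by linarith) (by linarith) 2
      have h3 : s * (b + s) ^ 2 ≤ b * (2 * b) ^ 2 := mul_le_mul hsb h2 (sq_nonneg _) hb.le
      calc (s * (b + s) ^ 2) * (b - s) ^ 2 ≤ (b * (2 * b) ^ 2) * (al - |γ|) ^ 2 :=
            mul_le_mul h3 h1 (sq_nonneg _) (by positivity)
        _ = _ := by ring
    rw [ob_eq, abs_mul, abs_of_nonneg hw0]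
    have := mul_le_mul_of_nonneg_left hgb hw0
    linarith
  · intro w' _ _ γ
    rw [ob_eq, ob_eq, ← sub_mul, abs_mul]
    refine mul_le_mul_of_nonneg_left ?_ (abs_nonneg _)
    have := g_le (sin γ)
    have hb3 : 0 < b ^ 3 := by positivity
    linarith

end N143.IB.ODD2
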